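import Mathlib
import Pool.Agent.H889R2.OM.Fin2

/-! Nonconstant weighted `𝔄_p`-harmonic morphisms of locally bounded multiplicity are open; no
assumption on the polarity of points. -/

open MeasureTheory Filter Topology Set

namespace Pool.Agent.Results.MP_abd978_an.OpenOfMultiplicity

open Pool.Agent.Helper533.Polar.Stmt hiding IsAdmissible
open Pool.Agent.H889R2.OM.Stm

/-- Let `n ≥ 2`, `1 < p < ∞`, let `w'`, `w` be `p`-admissible weights, `𝒜'`, `𝒜` operators satisfying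
the structure conditions with respect to `w'`, `w`, let `Ω ⊆ ℝⁿ` be a domain and `f` a nonconstant
`(𝒜', 𝒜)`-harmonic morphism on `Ω`. Suppose that every `x ∈ Ω` has a neighbourhood `U` such that, for
some `M`, there are points `z` arbitrarily close to `f(x)` with at most `M` preimages in `Ω ∩ U`.
Then `f` is an open mapping. -/
theorem result : ∀ (n : ℕ), 2 ≤ n → ∀ (p : ℝ), 1 < p → ∀ (w' w : Sp n → ℝ),
    IsAdmissible p w' → IsAdmissible p w → ∀ (α' β' α β : ℝ) (𝒜' 𝒜 : Sp n → Sp n → Sp n),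
    IsOperator p α' β' w' 𝒜' → IsOperator p α β w 𝒜 → ∀ (Ω : Set (Sp n)) (f : Sp n → Sp n),
    IsOpen Ω → IsConnected Ω → IsMorphism p w' 𝒜' w 𝒜 Ω f → (∃ a ∈ Ω, ∃ b ∈ Ω, f a ≠ f b) →
    (∀ x ∈ Ω, ∃ U ∈ 𝓝 x, ∃ M : ℕ, ∃ᶠ z in 𝓝 (f x), (Ω ∩ U ∩ f ⁻¹' {z}).encard ≤ M) →
    ∀ U ⊆ Ω, IsOpen U → IsOpen (f '' U) :=
  fun _ hn _ hp _ _ hw' hw _ _ _ _ _ _ hA' hA _ _ hΩ hΩc hf hne =>
    (Pool.Agent.H889R2.OM.om_main Pool.Agent.H889R2.OM.POT_ok Pool.Agent.H889R2.OM.POL'_ok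
      hn hp hw' hw hA' hA hΩ hΩc hf hne).2.2.2.2.2

end Pool.Agent.Results.MP_abd978_an.OpenOfMultiplicity
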